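import Pool.Agent.V11296.CW4

/-!
The factorisations `n^2+1 = d d'` with `d, d' ≤ X`, `n ≤ X` (and those of eight further polynomials
`F(n)`): for which residues `i`, `j` modulo `k` and which sets `T` of residue classes modulo `m` are
there such factorisations with `Ω(d) ≡ i`, `Ω(d') ≡ j mod k`, for which `T` is the set of the classes
which contain an odd number of the prime factors of `d d'`; those which occur do so for many `n`.

Starting files have the pair `(Ω(d), Ω(d'))` modulo `k` (equidistribution over the pairs, and the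
number of `n` for the residue of `Ω(n^2+1)`: `SquarefreeOmegaResidues`), and the parity of the number
of the prime factors in one set of classes (`PrimeClassParities` of MP_f1a94e_nt). The cancellation
theorem `W251.EG.tsG`, the criterion `W251.EG.apdE` and the passage from pairs to integers
`TH890.DV.pnL` used here are those of the starting files.
-/

set_option autoImplicit false

namespace Pool.Agent.Results.MP_7169d5_nt.FactorPatterns

open Finset Filter

open scoped Classical in
/-- the set of the positive integers `X` with `P X` has logarithmic density `0` -/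
def LogNull (P : ℕ → Prop) : Prop :=
  Tendsto (fun Z : ℕ => (∑ X ∈ (Icc 1 Z).filter P, 1 / (X : ℝ)) / Real.log Z) atTop (nhds 0)

/-- the nine pairs `(t, c)` with `t` in `{0, 1}` and `x^2+tx+c` of discriminant `-4`, `-8`, `-3`,
`-7`, `-11`, `-19`, `-43`, `-67`, `-163` -/
def nine : List (ℕ × ℕ) :=
  [(0, 1), (0, 2), (1, 1), (1, 2), (1, 3), (1, 5), (1, 11), (1, 17), (1, 41)]

open scoped Classical in
/-- the number of the prime factors of `N` in a residue class modulo `m`, counted with
multiplicity -/
noncomputable def factorsIn (m N : ℕ) (b : ZMod m) : ℕ :=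
  N.primeFactorsList.countP (fun p : ℕ => (p : ZMod m) = b)

open scoped Classical in
/-- the set of the residue classes modulo `m`, prime to `m`, which contain an odd number of the
prime factors of `N`, counted with multiplicity -/
noncomputable def oddClasses (m : ℕ) [NeZero m] (N : ℕ) : Finset (ZMod m)ˣ :=
  univ.filter (fun b => Odd (factorsIn m N b))

/-- `n^2+tn+c = d e` with `d, e ≤ X`, the number of the prime factors of `d` (with multiplicity) is
`≡ i mod k`, that of `e` is `≡ j mod k`, and `T` is the set of the classes modulo `m`, prime to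
`m`, which contain an odd number of the prime factors of `d e` -/
def HasPattern (t c m k i j : ℕ) [NeZero m] (T : Finset (ZMod m)ˣ) (X n : ℕ) : Prop :=
  ∃ d e : ℕ, d ≤ X ∧ e ≤ X ∧ d * e = n ^ 2 + t * n + c ∧ d.primeFactorsList.length ≡ i [MOD k] ∧
    e.primeFactorsList.length ≡ j [MOD k] ∧ oddClasses m (d * e) = T

/-- `b` is the residue class of a value `x^2+txy+cy^2` prime to `m` -/
def IsNorm (t c m : ℕ) (b : ZMod m) : Prop := ∃ x y : ℤ,
  IsCoprime (x ^ 2 + t * x * y + c * y ^ 2) (m : ℤ) ∧
  ((x ^ 2 + t * x * y + c * y ^ 2 : ℤ) : ZMod m) = b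

/-- `T` consists of classes of norms, `|T| ≡ i + j mod 2` if `k` is even, and
`a^2+ta+c ≡ s^2 ∏_{b ∈ T} b mod m` for the class `s` of a norm -/
def Admissible (t c m k a i j : ℕ) (T : Finset (ZMod m)ˣ) : Prop :=
  (∀ b ∈ T, IsNorm t c m b) ∧ (2 ∣ k → T.card ≡ i + j [MOD 2]) ∧
  ∃ s : ZMod m, IsNorm t c m s ∧
    ((a ^ 2 + t * a + c : ℕ) : ZMod m) = s ^ 2 * ∏ b ∈ T, (b : ZMod m)

open scoped Classical in
/-- the number of the integers `n ≤ X`, `n ≥ 0`, `n ≥ 1 - t`, `n ≡ a mod q`, such that `n^2+tn+c` is
squarefree and has a factorisation with the pattern given by `i`, `j` and `T` -/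
noncomputable def count (t c q a m k i j : ℕ) [NeZero m] (T : Finset (ZMod m)ˣ) (X : ℕ) : ℕ :=
  ((range (X + 1)).filter (fun n : ℕ => 1 ≤ n + t ∧ n ≡ a [MOD q] ∧
    Squarefree (n ^ 2 + t * n + c) ∧ HasPattern t c m k i j T X n)).card

/-- Let `(t, c)` be one of the nine pairs (`(0, 1)` gives `n^2+1`), `F(n) = n^2+tn+c`, let
`m, k ≥ 1`, let `q` be a multiple of `m`, and let `F(a)` be prime to `m`. Let `i`, `j` be integers
and `T` a set of residue classes modulo `m`, prime to `m`.

1. If some `n ≡ a mod q` has a factorisation `F(n) = d d'` with `Ω(d) ≡ i`, `Ω(d') ≡ j mod k`, and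
  `T` is the set of the classes prime to `m` which contain an odd number of the prime factors of
  `F(n)`, then `(i, j, T)` is admissible: `T` consists of classes of norms, `|T| ≡ i + j mod 2` if
  `k` is even, and `F(a) ≡ s^2 ∏_{b ∈ T} b mod m` for the class `s` of a norm.
2. Let `(i, j, T)` be admissible, and `l^2 ∤ F(a)` for all primes `l` with `l^2 ∣ q`. Then for every
  `ε > 0` and almost all `X` at least `X / (log X)^(log 2 + ε)` of the integers `n ≤ X`,
  `n ≡ a mod q`, have `F(n)` squarefree with a factorisation of this kind with `d, d' ≤ X`; and for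
  every `δ > 0` and all large `X` there are at least `X^(1 - δ)` such `n`. -/
theorem result (t c : ℕ) (htc : (t, c) ∈ nine) (m k q a : ℕ) [NeZero m] (hk : 1 ≤ k)
    (hq : 1 ≤ q) (hmq : m ∣ q) (ha : (a ^ 2 + t * a + c).Coprime m) (i j : ℕ)
    (T : Finset (ZMod m)ˣ) :
    (∀ n X : ℕ, n ≡ a [MOD q] → HasPattern t c m k i j T X n → Admissible t c m k a i j T) ∧
    (Admissible t c m k a i j T →
      (∀ l : ℕ, l.Prime → l ^ 2 ∣ q → ¬ l ^ 2 ∣ a ^ 2 + t * a + c) →
      (∀ ε : ℝ, 0 < ε →
        LogNull (fun X => (count t c q a m k i j T X : ℝ) < X / Real.log X ^ (Real.log 2 + ε))) ∧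
      ∀ δ : ℝ, 0 < δ → ∃ X₀ : ℕ, ∀ X : ℕ, X₀ ≤ X →
        (X : ℝ) ^ (1 - δ) ≤ count t c q a m k i j T X) := by
  obtain ⟨_, χ, hF⟩ := Pool.Agent.W251.EG.fd9 t c htc
  have hS := Pool.Agent.W251.EG.sps9 t c htc
  have hk0 : NeZero k := ⟨by omega⟩
  have hm1 : 1 ≤ m := Nat.one_le_iff_ne_zero.2 (NeZero.ne m)
  have hc := Pool.Agent.W251.EG.c_pos hF
  refine ⟨fun n X hn hp => ?_, fun hA hqa => ?_⟩
  · obtain ⟨d, e, _, _, hde, hi, hj, hT⟩ := hp
    have hpos := Pool.Agent.W251.EG.fpos (t := t) hc n
    have hd : d ≠ 0 := fun h => by rw [h, Nat.zero_mul] at hde; omega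
    have he : e ≠ 0 := fun h => by rw [h, Nat.mul_zero] at hde; omega
    have hJ : (n ^ 2 + t * n + c).primeFactorsList.length ≡ i + j [MOD k] := by
      rw [← hde, (Nat.perm_primeFactorsList_mul hd he).length_eq, List.length_append]
      exact hi.add hj
    rw [hde] at hT
    exact Pool.Agent.V11296.CV.nec hF hmq ha T hn hJ hT
  · have h := Pool.Agent.V11296.CW.gpk t c m k hm1
    have hal := Pool.Agent.V11296.CW.alq_k hF hm1 hk hmq ha T hA
    have hcw : ∀ X, count t c q a m k i j T X = Pool.Agent.V11296.CW.cw t c q a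
        (Pool.Agent.V11296.CW.H1 m k) (Pool.Agent.V11296.CW.H2 m k)
        (((i : ZMod k), (j : ZMod k), ∑ b ∈ T, Pool.Agent.V11296.CV.ev m (b : ZMod m)) :
          Pool.Agent.V11296.CW.Bk m k) X := by
      classical
      intro X
      unfold count Pool.Agent.V11296.CW.cw HasPattern
      congr 1
      ext n
      simp only [mem_filter]
      refine and_congr_right fun _ => and_congr_right fun _ => and_congr_right fun _ =>
        and_congr_right fun _ => ?_
      refine exists_congr fun d => exists_congr fun e => and_congr_right fun _ =>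
        and_congr_right fun _ => and_congr_right fun hde => ?_
      have hpos := Pool.Agent.W251.EG.fpos (t := t) hc n
      have hd : d ≠ 0 := fun h => by rw [h, Nat.zero_mul] at hde; omega
      have he : e ≠ 0 := fun h => by rw [h, Nat.mul_zero] at hde; omega
      exact (Pool.Agent.V11296.CW.pair_iff d e i j hd he T).symm
    refine ⟨fun ε hε => ?_, fun δ hδ => ?_⟩
    · have h1 := Pool.Agent.V11296.CW.outCw hF hS h _ q a hq hal hqa ε hε
      simp only [← hcw] at h1
      exact h1
    · have h1 := Pool.Agent.V11296.CW.outCwAll hF hS h _ q a hq hal hqa δ hδ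
      simp only [← hcw] at h1
      exact h1

end Pool.Agent.Results.MP_7169d5_nt.FactorPatterns
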