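import Pool.Agent.Results.MP_7169d5_nt.ShortIntervalsFewExceptions
import Pool.Agent.V11326.WS

/-!
# Almost primes `m ^ 2 + a` in arbitrarily short intervals after `α v_n`

Let `-a` be no perfect square, for instance `a = 1`, and let `v ≥ 1` be a sequence with exponent of convergence at most `τ`
(for `v_n = b ^ n` it is `0`, for `v_n = n ^ c` it is `1 / c`). For `0 < h ≤ 1` and all `α > 0` outside a set of Hausdorff
dimension at most `1 - h + τ`, for all large `n` the interval `(α v_n, α v_n + C v_n ^ h]` contains at least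
`δ v_n ^ h / log v_n` integers `m` for which `m ^ 2 + a` has at most five prime factors, all of them at least
`v_n ^ (1 / 5)`; for at most four and three prime factors the dimension is at most `269 / 250 - h + τ` and
`29 / 20 - h + τ`.
-/

set_option autoImplicit false

open Finset Filter Topology

namespace Pool.Agent.Results.MP_7169d5_nt.IntervalsAlongSequences

open ShortIntervalsFewExceptions (almostPrimes)

/-- the exponent of convergence of the sequence `v` is at most `τ` -/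
def ExpLe (v : ℕ → ℝ) (τ : ℝ) : Prop := ∀ t : ℝ, τ < t → Summable (fun n : ℕ => (v n) ^ (-t))

/-- The integers `m` in `(x, x + y]` such that `m ^ 2 + a` has at most `r` prime factors (counted with multiplicity), all
of them at least `w`. -/
def AP (a : ℤ) (r : ℕ) (w x y : ℝ) : Set ℕ :=
  {m : ℕ | x < m ∧ (m : ℝ) ≤ x + y ∧ ((m : ℤ) ^ 2 + a).natAbs.primeFactorsList.length ≤ r ∧
    ∀ p : ℕ, p.Prime → (p : ℤ) ∣ (m : ℤ) ^ 2 + a → w ≤ p}

/-- **Theorem.** Let `-a` be no perfect square and let `r = 5`, `1 / 2 ≤ t < 1`, `z = 2 t / 5`, or `r = 4`,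
`269 / 500 ≤ t < 1`, `z = t / 4`, or `r = 3`, `29 / 40 ≤ t < 1`, `z = t / 4`. Let `0 < h ≤ 1` and let `v ≥ 1` be a sequence
of exponent of convergence at most `τ ≥ 0`. There is a set `E` of Hausdorff dimension at most `2 t - h + τ` such that for
each `α > 0` outside `E` there are `δ > 0` and `C` such that for all but finitely many `n` the interval
`(α v_n, α v_n + C v_n ^ h]` contains at least `δ v_n ^ h / log v_n` integers `m` such that `m ^ 2 + a` has at most `r`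
prime factors, all of them at least `v_n ^ z`. The sequences `v_n = (n + 1) ^ c` and `v_n = b ^ n` have exponent of
convergence at most `1 / c` and `0`. -/
theorem result :
    (∀ (a : ℤ), ¬ IsSquare (-a) → ∀ (r : ℕ) (t z : ℝ),
      ((r = 5 ∧ 1 / 2 ≤ t ∧ z = 2 / 5 * t) ∨ (r = 4 ∧ 269 / 500 ≤ t ∧ z = t / 4) ∨
        (r = 3 ∧ 29 / 40 ≤ t ∧ z = t / 4)) → t < 1 → ∀ h : ℝ, 0 < h → h ≤ 1 →
      ∀ (v : ℕ → ℝ) (τ : ℝ), (∀ n, 1 ≤ v n) → 0 ≤ τ → ExpLe v τ →
      ∃ E : Set ℝ, dimH E ≤ ENNReal.ofReal (2 * t - h + τ) ∧ ∀ α : ℝ, 0 < α → α ∉ E →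
        ∃ δ C : ℝ, 0 < δ ∧ ∃ n₀ : ℕ, ∀ n : ℕ, n₀ ≤ n → (AP a r ((v n) ^ z) (α * v n) (C * (v n) ^ h)).Finite ∧
          δ * (v n) ^ h / Real.log (v n) ≤ ((AP a r ((v n) ^ z) (α * v n) (C * (v n) ^ h)).ncard : ℝ)) ∧
    (∀ c : ℝ, 0 < c → ExpLe (fun n : ℕ => ((n : ℝ) + 1) ^ c) (1 / c)) ∧
    (∀ b : ℝ, 1 < b → ExpLe (fun n : ℕ => b ^ n) 0) := by
  classical
  refine ⟨fun a ha r t z hpar ht h hh h1 v τ hv hτ hE => ?_, fun κ hκ => Pool.Agent.Y854.GM.expLe_pow κ hκ,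
    fun b hb => Pool.Agent.Y854.GM.expLe_geom b hb⟩
  have hz : 0 < z := by
    rcases hpar with ⟨-, h2, h3⟩ | ⟨-, h2, h3⟩ | ⟨-, h2, h3⟩ <;> rw [h3] <;> linarith
  have ht1 : 1 / 2 ≤ t := by
    rcases hpar with ⟨-, h2, -⟩ | ⟨-, h2, -⟩ | ⟨-, h2, -⟩ <;> linarith
  have htv : Tendsto v atTop atTop :=
    Pool.Agent.Y854.GM.tendsto_of_expLe (fun k => lt_of_lt_of_le one_pos (hv k)) hτ hE
  have hall : ∀ j : ℕ, ∃ δ : ℝ, 0 < δ ∧ ∃ E : Set ℝ,
      dimH E ≤ ENNReal.ofReal ((2 * t - h + 1 / ((j : ℝ) + 1) + τ) / (1 - 0)) ∧ ∀ α : ℝ, 0 < α → α ∉ E →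
      ∃ A : ℕ, α ≤ A ∧ ∃ n0 : ℕ, ∀ n : ℕ, n0 ≤ n → ∀ N : ℕ, 1 ≤ N → |(N : ℝ) - α * v n| ≤ (v n) ^ (0 : ℝ) →
        N ≤ ⌈((A : ℝ) + 1) * v n⌉₊ ∧ ¬ ((almostPrimes a r ((⌈((A : ℝ) + 1) * v n⌉₊ : ℝ) ^ z) N
          ⌊(⌈((A : ℝ) + 1) * v n⌉₊ : ℝ) ^ h⌋₊ : ℝ) <
            δ * (⌈((A : ℝ) + 1) * v n⌉₊ : ℝ) ^ h / Real.log (⌈((A : ℝ) + 1) * v n⌉₊ : ℝ)) := by
    intro j
    have hj : (0 : ℝ) < 1 / ((j : ℝ) + 1) := by positivity
    obtain ⟨δ, hδ, hX⟩ := ShortIntervalsFewExceptions.result a ha r t z hpar ht h (1 / ((j : ℝ) + 1)) hh h1 hj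
    obtain ⟨X₀, hX₀⟩ := hX.exists_forall_of_atTop
    refine ⟨δ, hδ, ?_⟩
    refine Pool.Agent.V11326.WS.seqScale (fun X N => (almostPrimes a r ((X : ℝ) ^ z) N ⌊(X : ℝ) ^ h⌋₊ : ℝ) <
      δ * (X : ℝ) ^ h / Real.log X) hv hτ hE (s := 2 * t - h + 1 / ((j : ℝ) + 1)) (by linarith) one_pos
      ⟨X₀, fun X hX => le_trans (le_of_eq ?_) (hX₀ X hX)⟩
    rw [← Set.ncard_coe_finset]
    congr 2
    ext N
    simp only [Finset.coe_filter, Finset.mem_Icc, Set.mem_setOf_eq]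
    tauto
  choose δ hδ E hE1 hE2 using hall
  refine ⟨⋂ j, E j, ?_, fun α hα hαE => ?_⟩
  · have := Pool.Agent.V11326.WS.inter_dim (s := 2 * t - h) (τ := τ) (θ := 0) one_pos E hE1
    simpa using this
  · obtain ⟨j, hj⟩ : ∃ j, α ∉ E j := by
      by_contra hcon
      push Not at hcon
      exact hαE (Set.mem_iInter.2 hcon)
    obtain ⟨A, hA, n0, hn0⟩ := hE2 j α hα hj
    have hA0 : (0 : ℝ) ≤ A := Nat.cast_nonneg A
    obtain ⟨n1, hn1⟩ := ((htv.eventually_ge_atTop (1 / α)).and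
      (htv.eventually_ge_atTop ((A : ℝ) + 2))).exists_forall_of_atTop
    refine ⟨δ j / 2, ((A : ℝ) + 2) ^ h, by linarith [hδ j], max n0 n1, fun n hn => ?_⟩
    obtain ⟨hv1, hv2⟩ := hn1 n ((le_max_right _ _).trans hn)
    have hvn : 0 < v n := lt_of_lt_of_le one_pos (hv n)
    have hαv : 1 ≤ α * v n := by
      rw [div_le_iff₀ hα] at hv1
      linarith
    set N : ℕ := ⌊α * v n⌋₊ with hN
    have hN1 : 1 ≤ N := Nat.le_floor (by exact_mod_cast hαv)
    have hNle : (N : ℝ) ≤ α * v n := Nat.floor_le (by positivity)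
    have hNlt : α * v n < N + 1 := Nat.lt_floor_add_one _
    have hNw : |(N : ℝ) - α * v n| ≤ (v n) ^ (0 : ℝ) := by
      rw [Real.rpow_zero, abs_le]
      constructor <;> linarith
    obtain ⟨hNX, hgood⟩ := hn0 n ((le_max_left _ _).trans hn) N hN1 hNw
    set X : ℕ := ⌈((A : ℝ) + 1) * v n⌉₊ with hX
    have hXge : v n ≤ (X : ℝ) := by
      refine le_trans ?_ (Nat.le_ceil _)
      nlinarith
    have hXle : (X : ℝ) ≤ ((A : ℝ) + 2) * v n := by
      have := Nat.ceil_lt_add_one (show 0 ≤ ((A : ℝ) + 1) * v n by positivity)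
      nlinarith [hv n]
    have hX1 : 1 < (X : ℝ) := by linarith
    have hXh : (X : ℝ) ^ h ≤ ((A : ℝ) + 2) ^ h * (v n) ^ h := by
      rw [← Real.mul_rpow (by positivity) hvn.le]
      exact Real.rpow_le_rpow (by linarith) hXle hh.le
    have hfin : (AP a r ((v n) ^ z) (α * v n) (((A : ℝ) + 2) ^ h * (v n) ^ h)).Finite := by
      refine (Set.finite_Icc 0 ⌊α * v n + ((A : ℝ) + 2) ^ h * (v n) ^ h⌋₊).subset fun m hm => ⟨Nat.zero_le _, ?_⟩
      exact Nat.le_floor hm.2.1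
    refine ⟨hfin, ?_⟩
    have hsub : (((Finset.Ioc N (N + ⌊(X : ℝ) ^ h⌋₊)).filter (fun n : ℕ =>
        ((n : ℤ) ^ 2 + a).natAbs.primeFactorsList.length ≤ r ∧
          ∀ p : ℕ, p.Prime → (p : ℤ) ∣ (n : ℤ) ^ 2 + a → (X : ℝ) ^ z ≤ p) : Finset ℕ) : Set ℕ) ⊆
        AP a r ((v n) ^ z) (α * v n) (((A : ℝ) + 2) ^ h * (v n) ^ h) := by
      intro m hm
      rw [Finset.mem_coe, Finset.mem_filter, Finset.mem_Ioc] at hm
      obtain ⟨⟨hm1, hm2⟩, hm3, hm4⟩ := hm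
      refine ⟨?_, ?_, hm3, fun p hp hpd => ?_⟩
      · have : ((N + 1 : ℕ) : ℝ) ≤ m := by exact_mod_cast hm1
        push_cast at this
        linarith
      · have h5 : (m : ℝ) ≤ N + ⌊(X : ℝ) ^ h⌋₊ := by exact_mod_cast hm2
        have h6 : (⌊(X : ℝ) ^ h⌋₊ : ℝ) ≤ (X : ℝ) ^ h := Nat.floor_le (by positivity)
        linarith
      · refine le_trans ?_ (hm4 p hp hpd)
        exact Real.rpow_le_rpow hvn.le hXge hz.le
    have hcard : (almostPrimes a r ((X : ℝ) ^ z) N ⌊(X : ℝ) ^ h⌋₊ : ℝ) ≤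
        ((AP a r ((v n) ^ z) (α * v n) (((A : ℝ) + 2) ^ h * (v n) ^ h)).ncard : ℝ) := by
      have h5 := Set.ncard_le_ncard hsub hfin
      rw [Set.ncard_coe_finset] at h5
      unfold almostPrimes
      exact_mod_cast h5
    refine le_trans ?_ hcard
    refine le_trans ?_ (not_lt.1 hgood)
    have hlv : 0 < Real.log (v n) := Real.log_pos (by linarith)
    have hlX : 0 < Real.log (X : ℝ) := Real.log_pos hX1
    have hlX2 : Real.log (X : ℝ) ≤ 2 * Real.log (v n) := by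
      calc Real.log (X : ℝ) ≤ Real.log (((A : ℝ) + 2) * v n) := Real.log_le_log (by linarith) hXle
        _ = Real.log ((A : ℝ) + 2) + Real.log (v n) := Real.log_mul (by positivity) hvn.ne'
        _ ≤ Real.log (v n) + Real.log (v n) := by
            have := Real.log_le_log (by positivity) hv2
            linarith
        _ = _ := by ring
    rw [div_le_div_iff₀ hlv hlX]
    have h7 : (v n) ^ h ≤ (X : ℝ) ^ h := Real.rpow_le_rpow hvn.le hXge hh.le
    have h8 : 0 ≤ (v n) ^ h := Real.rpow_nonneg hvn.le _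
    calc δ j / 2 * (v n) ^ h * Real.log (X : ℝ) ≤ δ j / 2 * (v n) ^ h * (2 * Real.log (v n)) :=
          mul_le_mul_of_nonneg_left hlX2 (mul_nonneg (by linarith [hδ j]) h8)
      _ = δ j * (v n) ^ h * Real.log (v n) := by ring
      _ ≤ δ j * (X : ℝ) ^ h * Real.log (v n) := by
          apply mul_le_mul_of_nonneg_right _ hlv.le
          exact mul_le_mul_of_nonneg_left h7 (hδ j).le

end Pool.Agent.Results.MP_7169d5_nt.IntervalsAlongSequences
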