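import Pool.Agent.V11296.CZ4

/-!
The prime factors `p` of the values `n^2+1`, and of those of eight further polynomials `F`, according
to the residue class modulo `m` of that one of the two prime elements above `p` which divides
`n + ω`: equidistribution in a finite abelian group, over the factorisations `F(n) = d d'`, with the
exact group and the exact coset.

The starting files have the cancellation theorems `W251.EG.twG`, `W251.EG.tsG` for products
`g₁(d) g₂(d')` over the factorisations `F(n) = d d'`, for functions `g₁`, `g₂` of integers, and the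
bilinear estimate `W251.EG.mainyG` behind them; the criterion `W251.EG.apdE` for aperiodicity is for
functions of the norm. New here: functions of the prime elements themselves, which distinguish the
two conjugate prime elements above `p` (`V11296.CZ.apdR`, `V11296.CZ.twR'`), and the group and the
coset of the values.
-/

set_option autoImplicit false

namespace Pool.Agent.Results.MP_7169d5_nt.OrientedClasses

open Finset Filter

open scoped Classical in
/-- the set of the positive integers `X` with `P X` has logarithmic density `0` -/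
def LogNull (P : ℕ → Prop) : Prop :=
  Tendsto (fun Z : ℕ => (∑ X ∈ (Icc 1 Z).filter P, 1 / (X : ℝ)) / Real.log Z) atTop (nhds 0)

/-- the nine pairs `(t, c)` with `t` in `{0, 1}` and `x^2+tx+c` of discriminant `-4`, `-8`, `-3`,
`-7`, `-11`, `-19`, `-43`, `-67`, `-163` -/
def nine : List (ℕ × ℕ) :=
  [(0, 1), (0, 2), (1, 1), (1, 2), (1, 3), (1, 5), (1, 11), (1, 17), (1, 41)]

/-- `E(x + y ω) = E x y` is a function on the residue classes modulo `m` of `ℤ[ω]`, where
`ω^2 = t ω - c`, with `E(u z) = E(z)` for the units `u` -/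
structure ClassFunction {A : Type} (t c m : ℕ) (E : ℤ → ℤ → A) : Prop where
  pos : 1 ≤ m
  per : ∀ x y u v : ℤ, x ≡ u [ZMOD m] → y ≡ v [ZMOD m] → E x y = E u v
  unit : ∀ a b x y : ℤ, a ^ 2 + t * a * b + c * b ^ 2 = 1 →
    E (a * x - c * b * y) (a * y + b * x + t * b * y) = E x y

/-- `z = x + y ω` has norm `p` and divides `n + ω` -/
def Above (t c n p : ℕ) (z : ℤ × ℤ) : Prop :=
  z.1 ^ 2 + t * z.1 * z.2 + c * z.2 ^ 2 = p ∧ (p : ℤ) ∣ z.1 - n * z.2

open scoped Classical in
/-- the value `E(π)` for the elements `π` of norm `p` which divide `n + ω` (`0` if there are none;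
for a prime factor `p` of `n^2+tn+c` there is one, and it is unique up to units) -/
noncomputable def value {A : Type} [AddCommGroup A] (t c : ℕ) (E : ℤ → ℤ → A) (n p : ℕ) : A :=
  if h : ∃ z : ℤ × ℤ, Above t c n p z then E h.choose.1 h.choose.2 else 0

open scoped Classical in
/-- the value `E(π̄)` for the elements `π` of norm `p` which divide `n + ω` -/
noncomputable def conjValue {A : Type} [AddCommGroup A] (t c : ℕ) (E : ℤ → ℤ → A) (n p : ℕ) : A :=
  if h : ∃ z : ℤ × ℤ, Above t c n p z then E (h.choose.1 + t * h.choose.2) (-h.choose.2) else 0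

/-- for `n^2+tn+c = d d'`, the sum of `τ - E(π̄)` over the prime factors of `d` and of `E(π)` over the
prime factors of `d'`, with multiplicity, where `π` is the prime element above `p` dividing `n + ω` -/
noncomputable def stat {A : Type} [AddCommGroup A] (t c : ℕ) (E : ℤ → ℤ → A) (τ : A) (n d : ℕ) : A :=
  (d.primeFactorsList.map (fun p => τ - conjValue t c E n p)).sum +
    (((n ^ 2 + t * n + c) / d).primeFactorsList.map (value t c E n)).sum

/-- the subgroup of `A` generated by `τ` and by all `E(z) + E(w) - E(z w)`, for `z = x + y ω`,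
`w = u + v ω` of norms prime to `m` -/
def defects {A : Type} [AddCommGroup A] (t c m : ℕ) (E : ℤ → ℤ → A) (τ : A) : AddSubgroup A :=
  AddSubgroup.closure {g | ∃ x y u v : ℤ,
    IsCoprime (x ^ 2 + t * x * y + c * y ^ 2) (m : ℤ) ∧
    IsCoprime (u ^ 2 + t * u * v + c * v ^ 2) (m : ℤ) ∧
    g = E x y + E u v - E (x * u - c * y * v) (x * v + y * u + t * y * v)} ⊔
  AddSubgroup.zmultiples τ

/-- either `D = defects t c m E τ` is all of `A`, or `m ∣ q`, `a^2+ta+c` is prime to `m`, and
`g ∈ E(a + ω) - E(r) + D` -/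
def Admissible {A : Type} [AddCommGroup A] (t c m q a r : ℕ) (E : ℤ → ℤ → A) (τ g : A) : Prop :=
  defects t c m E τ = ⊤ ∨ (m ∣ q ∧ (a ^ 2 + t * a + c).Coprime m ∧
    E a 1 - E r 0 - g ∈ defects t c m E τ)

open scoped Classical in
/-- the divisors `d ≡ r mod q` of `n^2+tn+c` with `s₁ X < d ≤ s₂ X` and `s₃ X < d' ≤ s₄ X`, where
`d d' = n^2+tn+c` -/
noncomputable def window (t c q r : ℕ) (s₁ s₂ s₃ s₄ : ℝ) (X n : ℕ) : Finset ℕ :=
  (n ^ 2 + t * n + c).divisors.filter (fun d : ℕ => d ≡ r [MOD q] ∧ s₁ * X < (d : ℝ) ∧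
    (d : ℝ) ≤ s₂ * X ∧ s₃ * X < (((n ^ 2 + t * n + c) / d : ℕ) : ℝ) ∧
    (((n ^ 2 + t * n + c) / d : ℕ) : ℝ) ≤ s₄ * X)

open scoped Classical in
/-- Let `(t, c)` be one of the nine pairs (`(0, 1)` gives `n^2+1`), `F(n) = n^2+tn+c` and
`ω^2 = t ω - c`; the integers `n` are `≥ 0` and `≥ 1 - t`. Let `A` be a finite abelian group, `τ` in
`A`, and `E` a function on the residue classes of `ℤ[ω]` modulo `m`, invariant under the units, with
values in `A`. For a factorisation `F(n) = d d'` let `S` be the sum of `E(π)` over the prime factors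
`p` of `d'` and of `τ - E(π̄)` over the prime factors `p` of `d`, with multiplicity, where `π` is the
prime element above `p` which divides `n + ω`. Let `D` be the group generated by `τ` and by the
`E(z) + E(w) - E(z w)` for `z`, `w` prime to `m`.

1. If `D = A`, or if `m ∣ q`, `F(a)` is prime to `m` and `g ∈ E(a + ω) - E(r) + D`, then for
`0 ≤ s₁ < s₂ ≤ 1`, `0 ≤ s₃ < s₄ ≤ 1`, every `ε > 0` and all `X` outside a set of logarithmic density
`0`, the number of the factorisations `F(n) = d d'` with `n ≤ X`, `n ≡ a mod q`, `d ≡ r mod q`,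
`s₁ X < d ≤ s₂ X`, `s₃ X < d' ≤ s₄ X` and `S = g` differs from `1 / |D|` times the number of all these
factorisations by at most `ε X`.

2. If `m ∣ q`, `F(a)` is prime to `m` and `g ∉ E(a + ω) - E(r) + D`, then there are no
factorisations `F(n) = d d'` with `n ≡ a`, `d ≡ r mod q` and `S = g`.

For example, with `A = B × ℤ/k × ℤ/k`, `τ = (0, 1, 1)` and `E(z) = (e(z) - e(z̄), 0, 1)` this is the
joint law of `Ω(d)`, `Ω(d')` modulo `k` and of the sum of all `e(π) - e(π̄)`. -/
theorem result (t c : ℕ) (htc : (t, c) ∈ nine) (A : Type) [AddCommGroup A] [Finite A] (m : ℕ)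
    (E : ℤ → ℤ → A) (hE : ClassFunction t c m E) (τ : A) (q a r : ℕ) (hq : 1 ≤ q) (g : A) :
    (Admissible t c m q a r E τ g → ∀ s₁ s₂ s₃ s₄ : ℝ, 0 ≤ s₁ → s₁ < s₂ → s₂ ≤ 1 → 0 ≤ s₃ →
      s₃ < s₄ → s₄ ≤ 1 → ∀ ε : ℝ, 0 < ε → LogNull (fun X : ℕ => ε * X <
        |∑ n ∈ (range (X + 1)).filter (fun n => 1 ≤ n + t ∧ n ≡ a [MOD q]),
          ∑ d ∈ window t c q r s₁ s₂ s₃ s₄ X n,
          ((if stat t c E τ n d = g then (1 : ℝ) else 0) -
            1 / (Nat.card (defects t c m E τ) : ℝ))|)) ∧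
    (m ∣ q → (a ^ 2 + t * a + c).Coprime m → E a 1 - E r 0 - g ∉ defects t c m E τ →
      ∀ n d : ℕ, 1 ≤ n + t → n ≡ a [MOD q] → d ≡ r [MOD q] → d ∣ n ^ 2 + t * n + c →
        stat t c E τ n d ≠ g) := by
  obtain ⟨f, χ, hF⟩ := Pool.Agent.W251.EG.fd9 t c htc
  have ht := Pool.Agent.W251.EG.t_le hF
  have hc := Pool.Agent.W251.EG.c_pos hF
  have h : Pool.Agent.V11296.CZ.Rc t c m E := ⟨hE.pos, hE.per, hE.unit⟩
  have hst : ∀ n d : ℕ, d * ((n ^ 2 + t * n + c) / d) = n ^ 2 + t * n + c →
      Pool.Agent.V11296.CZ.HC t c E τ (d, (n ^ 2 + t * n + c) / d) = stat t c E τ n d := by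
    intro n d hd
    unfold Pool.Agent.V11296.CZ.HC
    rw [Pool.Agent.V11296.CY.nn_eq (p := (d, (n ^ 2 + t * n + c) / d)) ht hd]
    rfl
  constructor
  · intro hg s₁ s₂ s₃ s₄ h1 h2 h3 h4 h5 h6 ε hε
    have h7 := Pool.Agent.V11296.CZ.outC hF h (g := g) (q := q) (a := a) (r := r) hq hg
      s₁ s₂ s₃ s₄ h1 h2 h3 h4 h5 h6 ε hε
    refine Pool.Agent.TH890.DV.LogNull.of_ev 0 (fun X _ hX => ?_) h7
    refine lt_of_lt_of_le hX (le_of_eq ?_)
    rw [Pool.Agent.V11296.CY.conv_d ht hc _ q a r s₁ s₂ s₃ s₄ h3 h6 X]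
    congr 1
    refine sum_congr (by congr!) fun n _ => sum_congr rfl fun d hd => ?_
    have hd1 := Nat.mul_div_cancel' (Nat.mem_divisors.1 (mem_filter.1 hd).1).1
    unfold Pool.Agent.V11296.CY.dv
    rw [hst n d hd1]
    rfl
  · intro hmq hcop hg n d hn hna hdr hd hS
    apply hg
    have hd1 : d * ((n ^ 2 + t * n + c) / d) = n ^ 2 + t * n + c := Nat.mul_div_cancel' hd
    have hd0 : 1 ≤ d := by
      rcases Nat.eq_zero_or_pos d with h0 | h0
      · rw [h0, zero_mul] at hd1
        omega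
      · exact h0
    have h0 : E a 1 - E r 0 - (E a 1 - E r 0) ∈ Pool.Agent.V11296.CW.Dt t c m E τ := by
      rw [sub_self]
      exact zero_mem _
    have h8 := Pool.Agent.V11296.CZ.hc_mem hF (Pool.Agent.W290.EG.pid hF) h (q := q) (a := a)
      (r := r) (g := E a 1 - E r 0) (τ := τ) (Or.inr ⟨hmq, hcop, h0⟩) hd0 hn hd1 hna hdr
    rw [hst n d hd1, hS] at h8
    have h9 := neg_mem h8
    rw [neg_sub] at h9
    exact h9

end Pool.Agent.Results.MP_7169d5_nt.OrientedClasses
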