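import Pool.Agent.V1137.Pm2

/-!
For most vectors `(b_1, ..., b_r)` of positive integers without local obstruction, the numbers
`a ^ 2 + b_1, ..., a ^ 2 + b_r` are simultaneously prime for the expected number, up to a constant
factor, of primes `a` which are isolated: there is no other prime at distance at most `Λ log a`.
-/

set_option autoImplicit false

open Finset Filter Topology

namespace Pool.Agent.Results.MP_7169d5_nt.SystemsAtIsolatedPrimes

/-- There is no prime `q ≠ p` with `|q - p| ≤ Λ log p`. -/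
def Isolated (Λ : ℝ) (p : ℕ) : Prop :=
  ∀ q : ℕ, q.Prime → |(q : ℝ) - p| ≤ Λ * Real.log p → q = p

/-- For every prime `l` there is an integer `n` such that `l` divides none of the numbers
`n, n ^ 2 + b_1, ..., n ^ 2 + b_r`. -/
def NoObstruction {r : ℕ} (b : Fin r → ℕ) : Prop :=
  ∀ l : ℕ, l.Prime → ∃ n : ℤ, ¬ (l : ℤ) ∣ n ∧ ∀ j, ¬ (l : ℤ) ∣ n ^ 2 + b j

open Classical in
/-- The isolated primes `a ≤ x` for which all `a ^ 2 + b_j` are prime. -/
noncomputable def arguments {r : ℕ} (Λ : ℝ) (b : Fin r → ℕ) (x : ℕ) : Finset ℕ :=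
  (Icc 1 x).filter (fun a => a.Prime ∧ Isolated Λ a ∧ ∀ j, (a ^ 2 + b j).Prime)

open Classical in
/-- The vectors with `1 ≤ b_j ≤ K x ^ 2` without obstruction and with fewer than
`c x / (log x) ^ (r + 1)` such primes. -/
noncomputable def exceptions (r : ℕ) (Λ c : ℝ) (K x : ℕ) : Finset (Fin r → ℕ) :=
  (Fintype.piFinset (fun _ : Fin r => Icc 1 (K * x ^ 2))).filter (fun b => NoObstruction b ∧
    ((arguments Λ b x).card : ℝ) < c * (x / Real.log x ^ (r + 1)))

open Pool.Agent.V1137.Unav in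
/-- **Simultaneous primes `a ^ 2 + b_j` at isolated primes `a`.** For all `r`, `Λ > 0`, `K` and
`κ > 0` there is `c > 0` such that for all large `x` and all vectors `(b_1, ..., b_r)` of integers
`1 ≤ b_j ≤ K x ^ 2` without local obstruction, with at most `κ (x ^ 2) ^ r` exceptions, there are at
least `c x / (log x) ^ (r + 1)` primes `a ≤ x` for which all `a ^ 2 + b_j` are prime and there is no
prime `q ≠ a` with `|q - a| ≤ Λ log a`. -/
theorem result (r : ℕ) (Λ : ℝ) (hΛ : 0 < Λ) (K : ℕ) (κ : ℝ) (hκ : 0 < κ) :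
    ∃ c : ℝ, 0 < c ∧ ∀ᶠ x : ℕ in atTop,
      ((exceptions r Λ c K x).card : ℝ) ≤ κ * ((x : ℝ) ^ 2) ^ r := by
  classical
  obtain ⟨c, hc, x₀, h⟩ := sys_pm (fun _ : Fin r => 1) (fun _ => Or.inl rfl)
    (fun _ => (Polynomial.X : Polynomial ℤ) ^ 2) (fun _ => by simp) (fun _ => by simp)
    (isolated Λ) (isolated_most Λ hΛ) K κ hκ
  refine ⟨c, hc, ?_⟩
  rw [eventually_atTop]
  have hdeg : ((Polynomial.X : Polynomial ℤ) ^ 2).natDegree = 2 := by simp
  refine ⟨x₀, fun x hx => le_trans ?_ ((h x hx).trans (le_of_eq ?_))⟩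
  · apply Nat.cast_le.2
    apply card_le_card
    intro b hb
    unfold exceptions at hb
    rw [mem_filter, Fintype.mem_piFinset] at hb
    rw [mem_filter, Fintype.mem_piFinset]
    refine ⟨fun j => ?_, ?_, ?_⟩
    · rw [hdeg]
      exact hb.1 j
    · intro l hl
      obtain ⟨n, hn1, hn2⟩ := hb.2.1 l hl
      refine ⟨n, hn1, fun j hd => hn2 j ?_⟩
      have e1 : (b j : ℤ) + 1 * ((Polynomial.X : Polynomial ℤ) ^ 2).eval n = n ^ 2 + b j := by
        rw [Polynomial.eval_pow, Polynomial.eval_X]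
        ring
      rwa [e1] at hd
    · refine lt_of_le_of_lt ?_ hb.2.2
      apply Nat.cast_le.2
      apply card_le_card
      intro p hp
      unfold Arg at hp
      unfold arguments
      rw [mem_filter] at hp ⊢
      refine ⟨hp.1, hp.2.1, hp.2.2.1, fun i => ?_⟩
      have h1 := hp.2.2.2 i
      rw [Polynomial.eval_pow, Polynomial.eval_X] at h1
      have e1 : ((b i : ℤ) + 1 * (p : ℤ) ^ 2).toNat = p ^ 2 + b i := by
        have e2 : (b i : ℤ) + 1 * (p : ℤ) ^ 2 = ((p ^ 2 + b i : ℕ) : ℤ) := by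
          push_cast
          ring
        rw [e2, Int.toNat_natCast]
      rwa [e1] at h1
  · rw [prod_congr rfl fun j _ => by rw [hdeg]]
    rw [prod_const, card_univ, Fintype.card_fin]

end Pool.Agent.Results.MP_7169d5_nt.SystemsAtIsolatedPrimes
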